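import Pool.Agent.H.MP_233a97_al.B

set_option autoImplicit false

namespace Pool.Agent.H.MP_7925a1_al

open Pool.Agent.H.MP_233a97_al

variable {X : Type} [Group X]

def bt (a b x y : X) : X := cm a (b ^ 16) * (((x * y) ^ 16)⁻¹ * x ^ 16 * y ^ 16)
def sy (g a b : X) : X := g * cm a (b ^ 16) * g⁻¹
def BB (X : Type) [Group X] : Set X := {y | ∃ a b x z, y = bt a b x z}

structure Laws (X : Type) [Group X] : Prop where
  l1 : ∀ x : X, x ^ 48 = 1
  l2 : ∀ y1 ∈ BB X, ∀ y2 ∈ BB X, ∀ y3 ∈ BB X, cm (cm y1 y2) y3 = 1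
  l3 : ∀ g a b : X, (sy g a b * b ^ 16) ^ 3 = 1
  l4 : ∀ g a g' a' b : X, (cm (sy g a b) (sy g' a' b) * b ^ 16) ^ 3 = 1
  l5 : ∀ y ∈ BB X, y ^ 4 = 1
  l6 : ∀ y ∈ BB X, ∀ y' ∈ BB X, cm y y' ^ 4 = 1

theorem cm_eq_one {a b : X} : cm a b = 1 ↔ Commute a b := by
  rw [cm, mul_inv_eq_one, mul_inv_eq_iff_eq_mul]; rfl

theorem cm_conj (g a b : X) : g * cm a b * g⁻¹ = cm (g * a * g⁻¹) (g * b * g⁻¹) := by
  simp only [cm]; group

theorem BB_conj {y : X} (hy : y ∈ BB X) (g : X) : g * y * g⁻¹ ∈ BB X := by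
  obtain ⟨a, b, x, z, rfl⟩ := hy
  refine ⟨g * a * g⁻¹, g * b * g⁻¹, g * x * g⁻¹, g * z * g⁻¹, ?_⟩
  have : MulAut.conj g (bt a b x z) = bt (MulAut.conj g a) (MulAut.conj g b) (MulAut.conj g x)
      (MulAut.conj g z) := by simp only [bt, cm, map_mul, map_inv, map_pow]
  exact this

theorem sy_mem (g a b : X) : sy g a b ∈ BB X :=
  BB_conj ⟨a, b, 1, 1, by simp [bt]⟩ g

theorem closure_normal {S : Set X} (hS : ∀ y ∈ S, ∀ g, g * y * g⁻¹ ∈ S) :
    (Subgroup.closure S).Normal := ⟨fun a ha g => by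
  have : Subgroup.closure S ≤ (Subgroup.closure S).comap (MulAut.conj g).toMonoidHom :=
    (Subgroup.closure_le _).2 fun y hy => Subgroup.subset_closure (hS y hy g)
  exact this ha⟩

theorem closure_comm {S T : Set X} (h : ∀ a ∈ S, ∀ b ∈ T, Commute a b) :
    ∀ a ∈ Subgroup.closure S, ∀ b ∈ Subgroup.closure T, Commute a b := by
  intro a ha b hb
  induction ha using Subgroup.closure_induction with
  | mem x hx =>
    induction hb using Subgroup.closure_induction with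
    | mem y hy => exact h x hx y hy
    | one => exact Commute.one_right _
    | mul _ _ _ _ h1 h2 => exact h1.mul_right h2
    | inv _ _ h1 => exact h1.inv_right
  | one => exact Commute.one_left _
  | mul _ _ _ _ h1 h2 => exact h1.mul_left h2
  | inv _ _ h1 => exact h1.inv_left

def th (t a : X) : X := a * (t * a * t⁻¹) * (t * (t * a * t⁻¹) * t⁻¹)

theorem th_of {t a : X} (ht : t ^ 3 = 1) (h : (a * t) ^ 3 = 1) : th t a = 1 := by
  have : th t a = (a * t) ^ 3 * (t ^ 3)⁻¹ := by simp only [th, pow_succ]; group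
  rw [this, h, ht]; simp

theorem gen {S : Set X} (hS : ∀ y ∈ S, ∀ g, g * y * g⁻¹ ∈ S) (hc : ∀ a ∈ S, ∀ b ∈ S, Commute a b)
    (t : X) (h : ∀ c ∈ S, th t c = 1 ∧ c ^ 4 = 1) :
    ∀ a ∈ Subgroup.closure S, th t a = 1 ∧ a ^ 4 = 1 := by
  have hN := closure_normal hS
  have hcc := closure_comm hc
  intro a ha
  induction ha using Subgroup.closure_induction with
  | mem x hx => exact h x hx
  | one => simp [th]
  | mul x y hx hy h1 h2 =>
    refine ⟨?_, by rw [(hcc x hx y hy).mul_pow, h1.2, h2.2, one_mul]⟩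
    have x1 := hN.conj_mem x hx t
    have y1 := hN.conj_mem y hy t
    have x2 := hN.conj_mem _ x1 t
    have e : th t (x * y) = x * (y * (t * x * t⁻¹)) * ((t * y * t⁻¹) * (t * (t * x * t⁻¹) * t⁻¹)) *
        (t * (t * y * t⁻¹) * t⁻¹) := by simp only [th]; group
    have e' : th t x * th t y = x * ((t * x * t⁻¹) * ((t * (t * x * t⁻¹) * t⁻¹) * y)) *
        (t * y * t⁻¹) * (t * (t * y * t⁻¹) * t⁻¹) := by simp only [th]; group
    rw [h1.1, h2.1, one_mul, (hcc _ x2 y hy).eq] at e'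
    rw [e, (hcc y hy _ x1).eq, (hcc _ y1 _ x2).eq, e']
    simp only [mul_assoc]
  | inv x hx h1 =>
    refine ⟨?_, by rw [inv_pow, h1.2, inv_one]⟩
    have x1 := hN.conj_mem x hx t
    have x2 := hN.conj_mem _ x1 t
    have e : (th t x⁻¹)⁻¹ = (t * (t * x * t⁻¹) * t⁻¹) * (t * x * t⁻¹) * x := by
      simp only [th, mul_inv_rev, inv_inv, mul_assoc]
    rw [← inv_eq_one, e, (hcc _ x2 _ x1).eq, mul_assoc, (hcc _ x2 x hx).eq, ← mul_assoc,
      (hcc _ x1 x hx).eq]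
    exact h1.1

theorem mono (L : Laws X) (w : X) (hw1 : w ≠ 1)
    (hw : ∀ N : Subgroup X, N.Normal → N ≠ ⊥ → w ∈ N) :
    ∃ (H : Subgroup X) (τ : X), H.Normal ∧ τ ^ 3 ∈ H ∧ (∀ x, ∃ j : ℕ, (τ ^ j)⁻¹ * x ∈ H) ∧
      ∀ b ∈ H, ∀ a, cm a (b ^ 16) = 1 := by
  by_cases h0 : ∀ a b : X, cm a (b ^ 16) = 1
  · exact ⟨⊤, 1, inferInstance, trivial, fun _ => ⟨0, trivial⟩, fun b _ a => h0 a b⟩
  have hw' : ∀ S : Set X, (∀ y ∈ S, ∀ g, g * y * g⁻¹ ∈ S) → (∃ y ∈ S, y ≠ 1) →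
      Subgroup.normalClosure {w} ≤ Subgroup.closure S := by
    rintro S hS ⟨y, hy, hy1⟩
    have := closure_normal hS
    refine Subgroup.normalClosure_le_normal (Set.singleton_subset_iff.2 (hw _ this fun h => hy1 ?_))
    exact (Subgroup.eq_bot_iff_forall _).1 h y (Subgroup.subset_closure hy)
  have t3 : ∀ b : X, (b ^ 16) ^ 3 = 1 := fun b => by rw [← pow_mul]; exact L.l1 b
  set A := Subgroup.normalClosure ({w} : Set X) with hA
  have wA : w ∈ A := Subgroup.subset_normalClosure rfl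
  have ccB : ∀ y1 ∈ BB X, ∀ y2 ∈ BB X, ∀ z ∈ Subgroup.closure (BB X), Commute (cm y1 y2) z :=
    fun y1 h1 y2 h2 z hz => closure_comm (S := {cm y1 y2}) (T := BB X)
      (by rintro _ rfl y3 h3; exact cm_eq_one.1 (L.l2 y1 h1 y2 h2 y3 h3)) _
      (Subgroup.subset_closure rfl) z hz
  have cmB : ∀ y1 ∈ BB X, ∀ y2 ∈ BB X, cm y1 y2 ∈ Subgroup.closure (BB X) := fun y1 h1 y2 h2 => by
    have a := Subgroup.subset_closure h1
    have b := Subgroup.subset_closure h2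
    exact mul_mem (mul_mem (mul_mem a b) (inv_mem a)) (inv_mem b)
  have key : ∀ b : X, (∃ a, cm a (b ^ 16) ≠ 1) → ∀ a ∈ A, th (b ^ 16) a = 1 ∧ a ^ 4 = 1 := by
    rintro b ⟨a0, ha0⟩ a ha
    have sc : ∀ g a g', g' * sy g a b * g'⁻¹ = sy (g' * g) a b := fun g a g' => by
      simp only [sy]; group
    by_cases hc : ∀ g a g' a', Commute (sy g a b) (sy g' a' b)
    · let S := {y | ∃ g a, y = sy g a b}
      have hS : ∀ y ∈ S, ∀ g, g * y * g⁻¹ ∈ S := by
        rintro _ ⟨g, a, rfl⟩ g'; exact ⟨_, _, sc _ _ _⟩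
      refine gen hS ?_ _ ?_ a (hw' S hS ⟨_, ⟨1, a0, rfl⟩, by simpa [sy] using ha0⟩ ha)
      · rintro _ ⟨g, a, rfl⟩ _ ⟨g', a', rfl⟩; exact hc _ _ _ _
      · rintro _ ⟨g, a, rfl⟩
        exact ⟨th_of (t3 b) (L.l3 g a b), L.l5 _ (sy_mem _ _ _)⟩
    · let S := {y | ∃ g a g' a', y = cm (sy g a b) (sy g' a' b)}
      have hS : ∀ y ∈ S, ∀ g, g * y * g⁻¹ ∈ S := by
        rintro _ ⟨g, a, g', a', rfl⟩ k
        exact ⟨_, _, _, _, by rw [cm_conj, sc, sc]⟩
      push Not at hc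
      obtain ⟨g1, a1, g2, a2, hc⟩ := hc
      refine gen hS ?_ _ ?_ a (hw' S hS ⟨_, ⟨g1, a1, g2, a2, rfl⟩, fun h => hc (cm_eq_one.1 h)⟩ ha)
      · rintro _ ⟨g, a, g', a', rfl⟩ _ ⟨k, c, k', c', rfl⟩
        exact ccB _ (sy_mem _ _ _) _ (sy_mem _ _ _) _ (cmB _ (sy_mem _ _ _) _ (sy_mem _ _ _))
      · rintro _ ⟨g, a, g', a', rfl⟩
        exact ⟨th_of (t3 b) (L.l4 g a g' a' b), L.l6 _ (sy_mem _ _ _) _ (sy_mem _ _ _)⟩
  push Not at h0
  obtain ⟨a0, τ, h0⟩ := h0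
  have AB : A ≤ Subgroup.closure (BB X) :=
    hw' _ (fun y hy g => BB_conj hy g) ⟨_, sy_mem 1 a0 τ, by simpa [sy] using h0⟩
  have AZ : ∀ a ∈ A, ∀ z ∈ Subgroup.closure (BB X), Commute a z := by
    by_cases hc : ∀ y ∈ BB X, ∀ y' ∈ BB X, Commute y y'
    · exact fun a ha => closure_comm hc a (AB ha)
    · push Not at hc
      obtain ⟨y, hy, y', hy', hc⟩ := hc
      have := hw' {c | ∃ y ∈ BB X, ∃ y' ∈ BB X, c = cm y y'} (by
        rintro _ ⟨y, hy, y', hy', rfl⟩ g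
        exact ⟨_, BB_conj hy g, _, BB_conj hy' g, cm_conj _ _ _⟩)
        ⟨_, ⟨y, hy, y', hy', rfl⟩, fun h => hc (cm_eq_one.1 h)⟩
      refine fun a ha => closure_comm ?_ a (this ha)
      rintro _ ⟨y, hy, y', hy', rfl⟩ z hz
      exact ccB y hy y' hy' z (Subgroup.subset_closure hz)
  let ρ : X →* MulAut A := MulAut.conjNormal
  have ρB : ∀ y ∈ BB X, ρ y = 1 := fun y hy => by
    ext a
    simp only [ρ, MulAut.conjNormal_apply, MulAut.one_apply]
    rw [← (AZ a a.2 y (Subgroup.subset_closure hy)).eq, mul_inv_cancel_right]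
  have ρc : ∀ g b, Commute (ρ g) (ρ (b ^ 16)) := fun g b => by
    have := ρB _ (sy_mem 1 g b)
    simp only [sy, one_mul, inv_one, mul_one, cm, map_mul, map_inv] at this
    exact cm_eq_one.1 this
  let ε : X →* MulAut A := MonoidHom.mk' (fun x => ρ (x ^ 16)) fun x y => by
    have := ρB _ ⟨1, 1, x, y, rfl⟩
    simp only [bt, cm, one_pow, mul_one, inv_one, one_mul, map_mul, map_inv] at this
    rw [mul_assoc, inv_mul_eq_one] at this
    exact this
  have hε : ∀ x, ε x = ρ (x ^ 16) := fun _ => rfl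
  have thA : ∀ b : X, (∃ a, cm a (b ^ 16) ≠ 1) → ∀ a : A, a * ε b a * ε b (ε b a) = 1 :=
    fun b hb a => Subtype.ext (key b hb a a.2).1
  have e3 : ∀ b, ε b ^ 3 = 1 := fun b => by rw [hε, ← map_pow, t3, map_one]
  refine ⟨ε.ker, τ, inferInstance, by rw [MonoidHom.mem_ker, map_pow, e3], fun x => ?_,
    fun b hb a => ?_⟩
  · simp only [MonoidHom.mem_ker, map_mul, map_inv, map_pow, inv_mul_eq_one]
    by_cases hx : ∃ a, cm a (x ^ 16) ≠ 1
    swap
    · push Not at hx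
      refine ⟨0, ?_⟩
      ext a
      simp only [hε, ρ, MulAut.conjNormal_apply, pow_zero, MulAut.one_apply]
      rw [← (cm_eq_one.1 (hx a)).eq, mul_inv_cancel_right]
    let _ : CommGroup A := { (inferInstance : Group A) with
      mul_comm := fun a b => Subtype.ext (AZ a a.2 b (AB b.2)).eq }
    let N : Subgroup X := ((ε x).toMonoidHom.eqLocus (ε τ).toMonoidHom).map A.subtype
    have hN : N.Normal := ⟨by
      rintro _ ⟨a, ha, rfl⟩ g
      refine ⟨ρ g a, ?_, rfl⟩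
      have ha' : ε x a = ε τ a := ha
      change ε x (ρ g a) = ε τ (ρ g a)
      rw [← MulAut.mul_apply, ← MulAut.mul_apply, hε, hε, ← (ρc g x).eq, ← (ρc g τ).eq,
        MulAut.mul_apply, MulAut.mul_apply, ← hε, ← hε, ha']⟩
    by_cases hN0 : N = ⊥
    · refine ⟨2, ?_⟩
      ext1 a
      have c : ∀ a, ε x (ε τ a) = ε τ (ε x a) := fun a => by
        rw [← MulAut.mul_apply, ← MulAut.mul_apply, hε, hε, (ρc (x ^ 16) τ).eq]
      have d : ε τ (ε τ (ε τ a)) = a := by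
        have := congrArg (fun f : MulAut A => f a) (e3 τ)
        simpa [pow_succ] using this
      have hb : ε x (ε x a * (ε τ (ε τ a))⁻¹) = ε τ (ε x a * (ε τ (ε τ a))⁻¹) := by
        have h1 := thA x hx a
        have h2 := congrArg (ε x) (thA τ ⟨a0, h0⟩ a)
        simp only [map_mul, map_one, map_inv, d, ← c] at h2 ⊢
        rw [mul_inv_eq_iff_eq_mul, mul_right_comm, eq_mul_inv_iff_mul_eq]
        apply mul_left_cancel (a := ε x a)
        rw [← mul_assoc, ← mul_assoc, h2, mul_comm (ε x a * _), ← mul_assoc, h1]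
      have : ((ε x a * (ε τ (ε τ a))⁻¹ : A) : X) ∈ N := ⟨_, hb, rfl⟩
      rw [hN0, Subgroup.mem_bot] at this
      have : ε x a * (ε τ (ε τ a))⁻¹ = 1 := Subtype.ext this
      rw [mul_inv_eq_one] at this
      simp [pow_succ, this]
    · refine ⟨1, ?_⟩
      ext1 a
      have : A ≤ N := Subgroup.normalClosure_le_normal (Set.singleton_subset_iff.2 (hw N hN hN0))
      obtain ⟨a', ha', e⟩ := this a.2
      obtain rfl : a' = a := Subtype.ext e
      rw [pow_one]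
      exact Eq.symm ha'
  · by_contra h
    have h1 := thA b ⟨a, h⟩ ⟨w, wA⟩
    rw [show ε b = 1 from hb] at h1
    have h2 := (key b ⟨a, h⟩ w wA).2
    have h3 : w * w * w = 1 := congrArg Subtype.val h1
    apply hw1
    rw [show w ^ 4 = w * w * w * w by simp [pow_succ], h3, one_mul] at h2
    exact h2

end Pool.Agent.H.MP_7925a1_al
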