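import Pool.Agent.H.MP_7925a1_al.A

set_option autoImplicit false

namespace Pool.Agent.H.MP_7925a1_al

open Pool.Agent.H.MP_233a97_al Filter SemidirectProduct

section
variable {E : Type} [Group E] [Fintype E] (K : Type) [Field K] (c : Subgroup.center E) [CharP K 2]

theorem cube (g : Gp K c) (u : Kˣ) (hg : g.right = (1, u)) (hu : (u : K) ^ 2 + u + 1 = 0) :
    g ^ 3 = 1 := by
  obtain ⟨h, t⟩ := g
  obtain rfl : t = (1, u) := hg
  have h3 : (u : K) ^ 3 = 1 := by linear_combination ((u : K) - 1) * hu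
  have h3' : u * u * u = 1 := Units.ext (by simpa [pow_succ] using h3)
  have sx : ∀ (v : Kˣ) (a : Hs (γ K c)) (g : E), (((1, v) : E × Kˣ) • a).x g = v * a.x g :=
    fun v a g => by rw [smul_x]; simp
  have ss : ∀ (v : Kˣ) (a : Hs (γ K c)) f, (((1, v) : E × Kˣ) • a).s f = v ^ 2 * a.s f :=
    fun v a f => by
      change (v : K) ^ 2 * a.s (tr K c 1⁻¹ f) = _
      rw [show tr K c 1⁻¹ f = f from Subtype.ext (funext fun g => by simp [tr])]
  simp only [pow_succ, pow_zero, one_mul]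
  ext1
  · simp only [mul_left, mul_right, MulDistribMulAction.toMulAut_apply,
      MulDistribMulAction.toMulEquiv_apply, Prod.mk_mul_mk, one_mul, one_left]
    ext f
    · simp only [Hs.mul_x, Pi.add_apply, sx, Units.val_mul, Hs.one_x, Pi.zero_apply]
      linear_combination h.x f * hu
    · simp only [Hs.mul_s, Hs.mul_x, Pi.add_apply, ss, γ_apply, sx, Units.val_mul, Hs.one_s,
        Pi.zero_apply]
      have e1 : ∑ g, h.x g * (u * h.x (g * c)) * f.1 g = u * ∑ g, h.x g * h.x (g * c) * f.1 g := by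
        rw [Finset.mul_sum]; exact Finset.sum_congr rfl fun g _ => by ring
      have e2 : ∑ g, (h.x g + u * h.x g) * (u * u * h.x (g * c)) * f.1 g =
          (1 + u) * (u * u) * ∑ g, h.x g * h.x (g * c) * f.1 g := by
        rw [Finset.mul_sum]; exact Finset.sum_congr rfl fun g _ => by ring
      rw [e1, e2]
      linear_combination (h.s f + ∑ g, h.x g * h.x (g * c) * f.1 g) * hu +
        (u * h.s f + ∑ g, h.x g * h.x (g * c) * f.1 g) * h3
  · simp [h3']

theorem laws (h4 : ∀ g : E, g ^ 4 = 1) (hK : ∀ u : Kˣ, u ^ 3 = 1) : Laws (Gp K c) := by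
  let ρ : Gp K c →* E × Kˣ := rightHom
  have r16 : ∀ b, ρ (b ^ 16) = (1, b.right.2) := fun b => by
    rw [map_pow]
    ext1
    · simp only [Prod.pow_fst]
      rw [show 16 = 4 * 4 from rfl, pow_mul, h4]
    · simp only [Prod.pow_snd]
      rw [show 16 = 3 * 5 + 1 from rfl, pow_succ, pow_mul, hK, one_pow, one_mul]
      rfl
  have rc : ∀ a b, ρ (cm a (b ^ 16)) = 1 := fun a b => by
    simp only [cm, map_mul, map_inv, r16]
    ext1 <;> simp
  have rB : ∀ y ∈ BB (Gp K c), ρ y = 1 := by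
    rintro _ ⟨a, b, x, z, rfl⟩
    simp only [bt, map_mul, map_inv, rc, r16]
    ext1
    · simp
    · simp [mul_assoc]
  have il : ∀ y, ρ y = 1 → ∃ a, y = inl a := fun y hy =>
    ⟨y.left, by ext1 <;> simp [show y.right = 1 from hy]⟩
  have four : ∀ y, ρ y = 1 → y ^ 4 = 1 := fun y hy => by
    obtain ⟨a, rfl⟩ := il y hy
    rw [← map_pow, Hs.four, map_one]
    · intro x; ext; exact CharTwo.add_self_eq_zero _
    · intro x; ext; exact CharTwo.add_self_eq_zero _
  have rcm : ∀ y y', ρ y = 1 → ρ y' = 1 → ρ (cm y y') = 1 := fun y y' h h' => by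
    simp [cm, h, h']
  have cb : ∀ y b, ρ y = 1 → (b ^ 16 = 1 → y = 1) → (y * b ^ 16) ^ 3 = 1 := fun y b hy h => by
    by_cases hb : b.right.2 = 1
    · have := exp16 K c h4 b hb
      rw [h this, this]; simp
    · refine cube K c _ b.right.2 
        (show ρ (y * b ^ 16) = (1, b.right.2) by rw [map_mul, hy, r16, one_mul]) ?_
      have h1 : ((b.right.2 : K) - 1) ≠ 0 := fun h => hb (Units.ext (sub_eq_zero.1 h))
      have h2 : (b.right.2 : K) ^ 3 = 1 := by rw [← Units.val_pow_eq_pow_val, hK, Units.val_one]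
      apply mul_left_cancel₀ h1
      linear_combination h2
  refine ⟨fun x => ?_, fun y1 h1 y2 h2 y3 h3 => ?_, fun g a b => ?_, fun g a g' a' b => ?_,
    fun y hy => four y (rB y hy), fun y hy y' hy' => four _ (rcm _ _ (rB y hy) (rB y' hy'))⟩
  · have := cb 1 x (map_one _) fun _ => rfl
    rwa [one_mul, ← pow_mul] at this
  · obtain ⟨a1, rfl⟩ := il _ (rB _ h1)
    obtain ⟨a2, rfl⟩ := il _ (rB _ h2)
    obtain ⟨a3, rfl⟩ := il _ (rB _ h3)
    rw [cm_eq_one, cm, ← map_inv, ← map_inv, ← map_mul, ← map_mul, ← map_mul]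
    refine Commute.map ?_ _
    refine (Hs.comm_iff _ _).2 ?_
    simp
  · exact cb _ _ (rB _ (sy_mem _ _ _)) fun h => by simp [sy, cm, h]
  · exact cb _ _ (rcm _ _ (rB _ (sy_mem _ _ _)) (rB _ (sy_mem _ _ _))) fun h => by simp [sy, cm, h]
end

def β {X : Type} [Group X] (a : ℕ → X) (k : ℕ) : X := bt (a k) (a (k + 1)) (a (k + 2)) (a (k + 3))

def LL {X : Type} [Group X] (a : ℕ → X) : Fin 6 → X :=
  ![a 0 ^ 48, cm (cm (β a 0) (β a 4)) (β a 8), (sy (a 0) (a 1) (a 2) * a 2 ^ 16) ^ 3,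
    (cm (sy (a 0) (a 1) (a 4)) (sy (a 2) (a 3) (a 4)) * a 4 ^ 16) ^ 3, β a 0 ^ 4,
    cm (β a 0) (β a 4) ^ 4]

theorem map_LL {X Y : Type} [Group X] [Group Y] (f : X →* Y) (a : ℕ → X) (i : Fin 6) :
    f (LL a i) = LL (fun n => f (a n)) i := by
  fin_cases i <;> simp [LL, β, bt, sy, cm]

theorem laws_iff (X : Type) [Group X] :
    Laws X ↔ ∀ i, ∀ φ : FreeGroup ℕ →* X, φ (LL FreeGroup.of i) = 1 := by
  constructor
  · intro L i φ
    rw [map_LL]
    fin_cases i
    · exact L.l1 _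
    · exact L.l2 _ ⟨_, _, _, _, rfl⟩ _ ⟨_, _, _, _, rfl⟩ _ ⟨_, _, _, _, rfl⟩
    · exact L.l3 _ _ _
    · exact L.l4 _ _ _ _ _
    · exact L.l5 _ ⟨_, _, _, _, rfl⟩
    · exact L.l6 _ ⟨_, _, _, _, rfl⟩ _ ⟨_, _, _, _, rfl⟩
  · intro h
    have h' : ∀ i (l : List X), LL (fun n => l.getD n 1) i = 1 := fun i l => by
      have := h i (FreeGroup.lift fun n => l.getD n 1)
      rw [map_LL] at this
      simpa only [FreeGroup.lift_apply_of] using this
    refine ⟨fun x => h' 0 [x], ?_, fun g a b => h' 2 [g, a, b],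
      fun g a g' a' b => h' 3 [g, a, g', a', b], ?_, ?_⟩
    · rintro _ ⟨a, b, x, z, rfl⟩ _ ⟨a', b', x', z', rfl⟩ _ ⟨a'', b'', x'', z'', rfl⟩
      exact h' 1 [a, b, x, z, a', b', x', z', a'', b'', x'', z'']
    · rintro _ ⟨a, b, x, z, rfl⟩
      exact h' 4 [a, b, x, z]
    · rintro _ ⟨a, b, x, z, rfl⟩ _ ⟨a', b', x', z', rfl⟩
      exact h' 5 [a, b, x, z, a', b', x', z']

theorem ultra (G : ℕ → Type) [∀ n, Group (G n)] : ∃ (Γ : Type) (_ : Group Γ),
    ∀ w : FreeGroup ℕ, (∀ φ : FreeGroup ℕ →* Γ, φ w = 1) ↔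
      ∀ᶠ n in hyperfilter ℕ, ∀ φ : FreeGroup ℕ →* G n, φ w = 1 := by
  let U := hyperfilter ℕ
  let K : Subgroup (∀ n, G n) :=
    { carrier := {g | ∀ᶠ n in U, g n = 1}
      mul_mem' := fun {a b} ha hb => (ha.and hb).mono fun n h => by simp [h.1, h.2]
      one_mem' := Eventually.of_forall fun n => rfl
      inv_mem' := fun {a} ha => ha.mono fun n h => by simp [h] }
  have : K.Normal := ⟨fun a ha g => ha.mono fun n h => by simp [h]⟩
  refine ⟨(∀ n, G n) ⧸ K, inferInstance, fun s => ⟨fun hS => ?_, fun h ψ => ?_⟩⟩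
  · by_contra hn
    have hn' := Ultrafilter.eventually_not.2 hn
    have : ∀ n, ∃ φ : FreeGroup ℕ →* G n, (¬ ∀ φ : FreeGroup ℕ →* G n, φ s = 1) → φ s ≠ 1 := by
      intro n
      by_cases h : ∀ φ : FreeGroup ℕ →* G n, φ s = 1
      · exact ⟨1, fun h' => absurd h h'⟩
      · obtain ⟨φ, hφ⟩ := not_forall.1 h
        exact ⟨φ, fun _ => hφ⟩
    choose φ hφ using this
    have h' : ∀ᶠ n in U, φ n s = 1 :=
      (QuotientGroup.eq_one_iff _).1 (hS ((QuotientGroup.mk' K).comp (MonoidHom.pi φ)))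
    obtain ⟨n, b1, b2⟩ := (hn'.and h').exists
    exact hφ n b1 b2
  · let χ : FreeGroup ℕ →* ∀ n, G n := FreeGroup.lift fun i => (ψ (FreeGroup.of i)).out
    have : ψ = (QuotientGroup.mk' K).comp χ := by
      ext i; simp [χ]
    rw [this]
    exact (QuotientGroup.eq_one_iff _).2 (h.mono fun k hk => hk ((Pi.evalMonoidHom G k).comp χ))

theorem gen0 : ∃ (G : Type) (_ : Group G) (Q : Type) (_ : Group Q) (_ : Finite Q) (σ : G →* Q),
    Laws G ∧ (∀ a b, σ a = 1 → σ b = 1 → cm a (b ^ 16) = 1) ∧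
    ∀ w : FreeGroup ℕ, (∀ φ : FreeGroup ℕ →* G, φ w = 1) → w ∈ Subgroup.closure
      {v | ∃ s ∈ Finset.univ.image (LL FreeGroup.of), ∃ ψ : FreeGroup ℕ →* FreeGroup ℕ, ψ s = v} := by
  classical
  set D := Subgroup.closure
      {v | ∃ s ∈ Finset.univ.image (LL FreeGroup.of), ∃ ψ : FreeGroup ℕ →* FreeGroup ℕ, ψ s = v}
  have hD : D.Normal := closure_normal (by
    rintro _ ⟨s, hs, ψ, rfl⟩ g
    exact ⟨s, hs, (MulAut.conj g).toMonoidHom.comp ψ, rfl⟩)
  have hz : ∀ w : {w // w ∉ D}, ∃ N : Subgroup (FreeGroup ℕ), D ≤ N ∧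
      Maximal (fun N : Subgroup (FreeGroup ℕ) => N.Normal ∧ w.1 ∉ N) N := fun w => by
    refine zorn_le_nonempty₀ {N : Subgroup (FreeGroup ℕ) | N.Normal ∧ w.1 ∉ N} ?_ D ⟨hD, w.2⟩
    intro c hc hch y hy
    have hd : DirectedOn (· ≤ ·) c := hch.directedOn
    refine ⟨sSup c, ⟨⟨fun a ha g => ?_⟩, fun h => ?_⟩, fun z hz => le_sSup hz⟩
    · obtain ⟨N, hN, ha⟩ := (Subgroup.mem_sSup_of_directedOn ⟨y, hy⟩ hd).1 ha
      exact le_sSup hN ((hc hN).1.conj_mem a ha g)
    · obtain ⟨N, hN, ha⟩ := (Subgroup.mem_sSup_of_directedOn ⟨y, hy⟩ hd).1 h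
      exact (hc hN).2 ha
  choose N hDN hN using hz
  have := fun w => (hN w).prop.1
  have hL : ∀ w, Laws (FreeGroup ℕ ⧸ N w) := fun w => (laws_iff _).2 fun i ψ => by
    let χ : FreeGroup ℕ →* FreeGroup ℕ := FreeGroup.lift fun i => (ψ (FreeGroup.of i)).out
    have : ψ = (QuotientGroup.mk' (N w)).comp χ := by
      ext i; simp [χ]
    rw [this]
    exact (QuotientGroup.eq_one_iff _).2 (hDN w (Subgroup.subset_closure
      ⟨_, Finset.mem_image_of_mem _ (Finset.mem_univ i), χ, rfl⟩))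
  have hw1 : ∀ w, (w.1 : FreeGroup ℕ ⧸ N w) ≠ 1 := fun w h =>
    (hN w).prop.2 ((QuotientGroup.eq_one_iff _).1 h)
  have hm := fun w => mono (hL w) _ (hw1 w) fun M hM hM0 => by
    by_contra h
    refine hM0 ((Subgroup.eq_bot_iff_forall _).2 fun x hx => ?_)
    obtain ⟨x, rfl⟩ := QuotientGroup.mk_surjective x
    refine (QuotientGroup.eq_one_iff _).2 ((hN w).le_of_ge
      (y := M.comap (QuotientGroup.mk' (N w))) ⟨inferInstance, h⟩ (fun z hz => ?_) hx)
    change (z : _ ⧸ N w) ∈ M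
    rw [(QuotientGroup.eq_one_iff _).2 hz]
    exact one_mem _
  choose H τ hH h3 hj hc using hm
  let H0 : Subgroup (∀ w, FreeGroup ℕ ⧸ N w) := Subgroup.pi Set.univ H
  have : H0.Normal := ⟨fun a ha g w hw => (hH w).conj_mem _ (ha w hw) _⟩
  let Z := Subgroup.zpowers (QuotientGroup.mk' H0 τ)
  have : Finite Z := (isOfFinOrder_iff_pow_eq_one.2 ⟨3, by norm_num, by
    rw [← map_pow]; exact (QuotientGroup.eq_one_iff _).2 fun w _ => h3 w⟩).finite_zpowers
  let G0 := Z.comap (QuotientGroup.mk' H0)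
  refine ⟨G0, inferInstance, Z, inferInstance, inferInstance,
    ((QuotientGroup.mk' H0).comp G0.subtype).codRestrict Z fun x => x.2,
    (laws_iff _).2 fun i φ => Subtype.ext (funext fun w => (laws_iff _).1 (hL w) i
      ((Pi.evalMonoidHom _ w).comp (G0.subtype.comp φ))), fun a b _ hb => ?_, fun w hw => ?_⟩
  · have hb' : b.1 ∈ H0 := (QuotientGroup.eq_one_iff _).1 (congrArg Subtype.val hb)
    exact Subtype.ext (funext fun w => hc w _ (hb' w trivial) (a.1 w))
  · by_contra h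
    have hs : ∀ x : FreeGroup ℕ ⧸ N ⟨w, h⟩, ∃ g : G0, g.1 ⟨w, h⟩ = x := fun x => by
      obtain ⟨j, hx⟩ := hj _ x
      refine ⟨⟨τ ^ j * Pi.mulSingle ⟨w, h⟩ ((τ ⟨w, h⟩ ^ j)⁻¹ * x), ?_⟩, by simp⟩
      refine Subgroup.mem_comap.2 ?_
      rw [map_mul, map_pow, QuotientGroup.mk'_apply _ (Pi.mulSingle _ _),
        (QuotientGroup.eq_one_iff _).2 (Subgroup.mulSingle_mem_pi _ _ |>.2 fun _ => hx), mul_one]
      exact pow_mem (Subgroup.mem_zpowers _) _
    choose g hg using hs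
    have e : ((Pi.evalMonoidHom _ ⟨w, h⟩).comp G0.subtype).comp
        (FreeGroup.lift fun i => g (FreeGroup.of i : FreeGroup ℕ)) = QuotientGroup.mk' _ := by
      ext i; simp [hg]
    refine hw1 ⟨w, h⟩ ?_
    rw [← QuotientGroup.mk'_apply, ← e, MonoidHom.comp_apply, hw, map_one]

theorem main : ∃ (Γ : Type) (_ : Group Γ) (H : Subgroup Γ), H.FiniteIndex ∧ FB Γ ∧ ¬ FB H := by
  have hc : ∀ N, (cN N : Hs (δ N)) * cN N = 1 := fun N => by ext1 <;> simp [cN, t2]
  have h4 : ∀ N (g : Hs (δ N)), g ^ 4 = 1 := fun N => Hs.four (t1 N) (t2 N)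
  have hcard : Nat.card (GaloisField 2 2)ˣ = 3 := by
    rw [Nat.card_units, GaloisField.card 2 2 (by norm_num)]
    norm_num
  obtain ⟨u, hu⟩ : ∃ u : (GaloisField 2 2)ˣ, u ≠ 1 := by
    have : Nontrivial (GaloisField 2 2)ˣ := by
      rw [← Finite.one_lt_card_iff_nontrivial, hcard]
      norm_num
    exact exists_ne 1
  obtain ⟨G, _, Q, _, _, σ, hL, hσ, hG⟩ := gen0
  obtain ⟨Γ, _, hΓ⟩ := ultra fun n => Gp (GaloisField 2 2) (cN (n + 1))
  refine ⟨G × Γ, inferInstance, (σ.comp (MonoidHom.fst _ _)).ker, inferInstance,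
    ⟨_, fun s hs φ => ?_, fun w hw => hG w fun φ =>
      congrArg Prod.fst (hw ((MonoidHom.inl _ _).comp φ))⟩, ?_⟩
  · obtain ⟨i, -, rfl⟩ := Finset.mem_image.1 hs
    exact Prod.ext ((laws_iff _).1 hL i ((MonoidHom.fst _ _).comp φ))
      ((hΓ _).2 (Eventually.of_forall fun n => (laws_iff _).1 (laws _ _ (h4 _) fun u => by
        rw [← hcard, pow_card_eq_one']) i) ((MonoidHom.snd _ _).comp φ))
  · rintro ⟨S, hS, hw⟩
    obtain ⟨n, hn⟩ := ((eventually_all_finset S).2 fun s hs => (hΓ s).1 fun φ =>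
      congrArg (fun x => x.1.2) (hS s hs (((MonoidHom.inr _ _).comp φ).codRestrict _
        fun x => map_one σ))).exists
    obtain ⟨a, ha⟩ := fails (GaloisField 2 2) (cN (n + 1)) (hc _)
      (fun h => one_ne_zero (congrArg Hs.s h)) (h4 _) (n + 1)
      (fun i => ⟨fun r => if (r : ℕ) = i then 1 else 0, 0⟩) (by
        rw [pw_eq]
        ext r s
        · rfl
        · simp only [Matrix.of_apply, cN, Fin.val_inj, Matrix.one_apply]
          rw [Finset.sum_eq_single r (fun i _ hi => by simp [hi.symm]) (by simp)]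
          simp [eq_comm]) u hu
    have : FreeGroup.lift a (wd FreeGroup.of (n + 1)) ≠ 1 := by simpa [map_wd] using ha
    refine this ((Subgroup.closure_le (FreeGroup.lift a).ker).2 ?_
      (hw _ fun ψ => Subtype.ext (Prod.ext ?_ ?_)))
    · rintro _ ⟨s, hs, ψ, rfl⟩
      exact hn s hs ((FreeGroup.lift a).comp ψ)
    · change ((MonoidHom.fst _ _).comp ((Subgroup.subtype _).comp ψ)) _ = 1
      rw [map_wd, wd, hσ]
      · simp [cm]
      · exact (ψ _).2
      · exact (ψ _).2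
    · refine (hΓ _).2 (Nat.hyperfilter_le_atTop ((eventually_gt_atTop n).mono fun k hk φ => ?_))
        ((MonoidHom.snd _ _).comp ((Subgroup.subtype _).comp ψ))
      rw [map_wd]
      refine holds _ _ (hc _) (h4 _) _ (fun a => ?_) _
      rw [pw_eq]
      refine ⟨fun h => ?_, by ext1 <;> simp [cN, t2]⟩
      have h1 := congrArg Hs.s h
      simp only [cN, Hs.mul_s, map_zero, add_zero, Hs.one_s] at h1
      let A : Matrix (Fin (k + 1)) (Fin (n + 1)) (ZMod 2) := Matrix.of fun r i => (a i).x r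
      have h2 : A * A.transpose = 1 := by
        rw [← add_left_cancel_iff (a := 1), t2, ← h1]
        rfl
      have h3 := Matrix.rank_mul_le_left A A.transpose
      rw [h2, Matrix.rank_one, Fintype.card_fin] at h3
      have := Matrix.rank_le_width A
      omega

end Pool.Agent.H.MP_7925a1_al
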